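import Pool.Agent.E8helper80.CT.Fam

/-!
# Lines in the three directions
-/

set_option autoImplicit false

namespace Pool.Agent.E8helper80.CT

open Finset Pool.Agent.TH835.Cor

variable {n : ℕ} {K : Type} [Field K]

/-- the three directions of lines -/
inductive Dir : Type
  | row
  | col
  | diag

/-- the point `y` of the line `x` -/
def pt : Dir → V n → V n → V n × V n
  | .row, x, y => (x, y)
  | .col, x, y => (y, x)
  | .diag, x, y => (x + y, y)

/-- no nontrivial corner -/
def CFree (A : Finset (V n × V n)) : Prop :=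
  ∀ x y z : V n, z ≠ 0 → ¬ ((x, y) ∈ A ∧ (x, y + z) ∈ A ∧ (x + z, y) ∈ A)

open Classical in
/-- the corners, trivial ones included -/
noncomputable def crn (A : Finset (V n × V n)) : Finset (V n × V n × V n) :=
  univ.filter fun p => (p.1, p.2.1) ∈ A ∧ (p.1, p.2.1 + p.2.2) ∈ A ∧ (p.1 + p.2.2, p.2.1) ∈ A

lemma pt_inj (d : Dir) {x y x' y' : V n} (h : pt d x y = pt d x' y') : x = x' ∧ y = y' := by
  cases d with
  | row => simpa [pt] using h
  | col => simp only [pt, Prod.mk.injEq] at h; exact ⟨h.2, h.1⟩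
  | diag =>
    simp only [pt, Prod.mk.injEq] at h
    obtain ⟨h1, h2⟩ := h
    subst h2
    exact ⟨add_right_cancel h1, rfl⟩

lemma pt_surj (d : Dir) (p : V n × V n) : ∃ x y, p = pt d x y := by
  cases d with
  | row => exact ⟨p.1, p.2, rfl⟩
  | col => exact ⟨p.2, p.1, rfl⟩
  | diag =>
    refine ⟨p.1 + p.2, p.2, ?_⟩
    simp only [pt]
    rw [add_assoc, add_self, add_zero]

/-- the lines of a corner-free set -/
lemma free_pt {A : Finset (V n × V n)} (hA : CFree A) (d : Dir) :
    Free fun x y => pt d x y ∈ A := by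
  intro x y z h1 h2 h3
  by_contra hz
  cases d with
  | row => exact hA x y z hz ⟨h1, h2, h3⟩
  | col => exact hA y x z hz ⟨h1, h3, h2⟩
  | diag =>
    simp only [pt] at h1 h2 h3
    refine hA (x + y + z) y z hz ⟨?_, ?_, ?_⟩
    · have e : x + y + z = x + z + y := by abel
      rw [e]; exact h3
    · have e : x + y + z = x + (y + z) := by abel
      rw [e]; exact h2
    · rw [add_assoc (x + y), add_self, add_zero]; exact h1

/-- corners in the set of a matrix with shifted rows give corners in `A` -/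
lemma corn_le {I : Type} [Fintype I] (A : Finset (V n × V n)) (d : Dir) (φ : V n → V n)
    (u v : I → V n → K) (h : ∀ x s, ent u v x s ≠ 0 → pt d x (s + φ x) ∈ A) :
    (corn φ u v).card ≤ (crn A).card := by
  classical
  have hback : ∀ x y : V n, ent u v x (y + φ x) ≠ 0 → pt d x y ∈ A := by
    intro x y h1
    have h2 := h _ _ h1
    rwa [add_assoc, add_self, add_zero] at h2
  have hpts : ∀ p ∈ corn φ u v, pt d p.1 p.2.1 ∈ A ∧ pt d p.1 (p.2.1 + p.2.2) ∈ A ∧
      pt d (p.1 + p.2.2) p.2.1 ∈ A := by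
    intro p hp
    obtain ⟨h1, h2, h3⟩ := (mem_filter.1 hp).2
    exact ⟨hback _ _ h1, hback _ _ h2, hback _ _ h3⟩
  cases d with
  | row =>
    refine Finset.card_le_card fun p hp => ?_
    obtain ⟨h1, h2, h3⟩ := hpts p hp
    exact mem_filter.2 ⟨mem_univ _, h1, h2, h3⟩
  | col =>
    refine Finset.card_le_card_of_injOn (fun p => (p.2.1, p.1, p.2.2)) ?_ ?_
    · intro p hp
      obtain ⟨h1, h2, h3⟩ := hpts p (mem_coe.1 hp)
      exact mem_coe.2 (mem_filter.2 ⟨mem_univ _, h1, h3, h2⟩)
    · rintro ⟨x, y, z⟩ _ ⟨x', y', z'⟩ _ he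
      simp only [Prod.mk.injEq] at he ⊢
      exact ⟨he.2.1, he.1, he.2.2⟩
  | diag =>
    refine Finset.card_le_card_of_injOn (fun p => (p.1 + p.2.1 + p.2.2, p.2.1, p.2.2)) ?_ ?_
    · rintro ⟨x, y, z⟩ hp
      obtain ⟨h1, h2, h3⟩ := hpts _ (mem_coe.1 hp)
      simp only [pt] at h1 h2 h3
      refine mem_coe.2 (mem_filter.2 ⟨mem_univ _, ?_, ?_, ?_⟩)
      · show (x + y + z, y) ∈ A
        have e : x + y + z = x + z + y := by abel
        rw [e]; exact h3
      · show (x + y + z, y + z) ∈ A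
        have e : x + y + z = x + (y + z) := by abel
        rw [e]; exact h2
      · show (x + y + z + z, y) ∈ A
        rw [add_assoc (x + y), add_self, add_zero]; exact h1
    · rintro ⟨x, y, z⟩ _ ⟨x', y', z'⟩ _ he
      simp only [Prod.mk.injEq] at he ⊢
      obtain ⟨h1, h2, h3⟩ := he
      subst h2
      subst h3
      exact ⟨add_right_cancel (add_right_cancel h1), rfl, rfl⟩

/-- matrices with shifted rows in `A` -/
theorem matrix_main [CharP K 2] {I : Type} [Fintype I] (A : Finset (V n × V n)) (d : Dir)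
    (φ : V n → V n) (u v : I → V n → K)
    (h : ∀ x s, ent u v x s ≠ 0 → pt d x (s + φ x) ∈ A) :
    ((supp u v).card : ℝ) ^ 2 ≤ (Fintype.card I : ℝ) ^ 2 * (54 : ℝ) ^ ((n : ℝ) / 3) *
        (crn A).card ∧
      (CFree A → ((supp u v).card : ℝ) ≤ (Fintype.card I : ℝ) ^ 2 * (54 : ℝ) ^ ((n : ℝ) / 3)) := by
  refine ⟨?_, fun hA => total _ (free_pt hA d) φ u v h⟩
  refine (count φ u v).trans (mul_le_mul_of_nonneg_left ?_ (by positivity))
  exact_mod_cast corn_le A d φ u v h

/-- translates of one set in `A` -/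
theorem translates (A : Finset (V n × V n)) (d : Dir) (S X : Finset (V n)) (c : V n → V n)
    (h : ∀ x ∈ X, ∀ s ∈ S, pt d x (s + c x) ∈ A) :
    ((S.card : ℝ) * X.card) ^ 2 ≤ (54 : ℝ) ^ ((n : ℝ) / 3) * (crn A).card ∧
      (CFree A → (S.card : ℝ) * X.card ≤ (54 : ℝ) ^ ((n : ℝ) / 3)) := by
  classical
  let u : Unit → V n → ZMod 2 := fun _ x => if x ∈ X then 1 else 0
  let v : Unit → V n → ZMod 2 := fun _ s => if s ∈ S then 1 else 0
  have he : ∀ x s, ent u v x s ≠ 0 ↔ x ∈ X ∧ s ∈ S := by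
    intro x s
    unfold ent
    by_cases h1 : x ∈ X <;> by_cases h2 : s ∈ S <;> simp [u, v, h1, h2]
  have hs : (supp u v).card = S.card * X.card := by
    have : supp u v = X ×ˢ S := by
      ext p
      simp only [supp, mem_filter, mem_univ, true_and, he, mem_product]
    rw [this, Finset.card_product, mul_comm]
  have h1 := matrix_main A d c u v (fun x s h' => h x ((he x s).1 h').1 s ((he x s).1 h').2)
  rw [hs] at h1
  simp only [Nat.cast_mul, Fintype.card_unit, Nat.cast_one, one_pow, one_mul] at h1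
  exact h1

open Classical in
/-- a union of pieces -/
theorem pieces [CharP K 2] (A : Finset (V n × V n)) (hA : CFree A) (N k r : ℕ)
    (d : Fin N → Dir) (φ : Fin N → V n → V n) (u v : Fin N → Fin r → V n → K)
    (a b : Fin N → V n → ℕ) (T : Fin N → Tree n) (hT : ∀ i, (T i).Comparisons)
    (hk : ∀ i, (T i).depth ≤ k)
    (hin : ∀ i x s, ent (u i) (v i) x s ≠ 0 ∧ a i x = b i s ∧ (T i).Accepts x s →
      pt (d i) x (s + φ i x) ∈ A)
    (hout : ∀ p ∈ A, ∃ i x s, p = pt (d i) x (s + φ i x) ∧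
      ent (u i) (v i) x s ≠ 0 ∧ a i x = b i s ∧ (T i).Accepts x s) :
    (A.card : ℝ) ≤ N * (2 * n + 2) ^ k * r * (4 : ℝ) ^ ((1 - 0.02 : ℝ) * n) := by
  classical
  let G : Fin N → Finset (V n × V n) := fun i => univ.filter fun p =>
    ent (u i) (v i) p.1 p.2 ≠ 0 ∧ a i p.1 = b i p.2 ∧ (T i).Accepts p.1 p.2
  have hGc : ∀ i, ((G i).card : ℝ) ≤ (2 * n + 2) ^ k * (r * (4 : ℝ) ^ ((1 - 0.02 : ℝ) * n)) := by
    intro i
    have h1 := family _ (free_pt hA (d i)) (φ i) (u i) (v i) (T i) (hT i) (a i) (b i) (G i)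
      (fun x s h => hin i x s (mem_filter.1 h).2) (fun x s => by
        simp only [G, mem_filter, mem_univ, true_and])
    rw [Fintype.card_fin] at h1
    refine h1.trans (mul_le_mul ?_ (const n r) (by positivity) (by positivity))
    rw [show (2 : ℝ) * (n + 1) = 2 * n + 2 by ring]
    apply pow_le_pow_right₀ _ (hk i)
    have : (0 : ℝ) ≤ n := Nat.cast_nonneg n
    linarith
  have hsub : A ⊆ univ.biUnion fun i => (G i).image fun q => pt (d i) q.1 (q.2 + φ i q.1) := by
    intro p hp
    obtain ⟨i, x, s, h1, h2⟩ := hout p hp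
    exact mem_biUnion.2 ⟨i, mem_univ _, mem_image.2 ⟨(x, s), mem_filter.2 ⟨mem_univ _, h2⟩,
      h1.symm⟩⟩
  have h1 : A.card ≤ ∑ i, (G i).card := by
    refine (Finset.card_le_card hsub).trans (Finset.card_biUnion_le.trans ?_)
    exact Finset.sum_le_sum fun i _ => Finset.card_image_le
  have h2 : (A.card : ℝ) ≤ ∑ i, ((G i).card : ℝ) := by exact_mod_cast h1
  refine h2.trans ((Finset.sum_le_sum fun i _ => hGc i).trans (le_of_eq ?_))
  rw [Finset.sum_const, Finset.card_univ, Fintype.card_fin, nsmul_eq_mul]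
  ring

/-- every line is the union of `N` translates of members of a list of `T` sets -/
theorem few_shapes (A : Finset (V n × V n)) (hA : CFree A) (d : Dir) (N T : ℕ)
    (S : Fin T → Finset (V n))
    (h : ∀ x, ∃ (j : Fin N → Fin T) (c : Fin N → V n), ∀ y,
      pt d x y ∈ A ↔ ∃ i, y + c i ∈ S (j i)) :
    (A.card : ℝ) ≤ N * T * (54 : ℝ) ^ ((n : ℝ) / 3) := by
  classical
  choose j c h using h
  let X : Fin N → Fin T → Finset (V n) := fun i t => univ.filter fun x => j x i = t
  have h1 : ∀ i t, ((S t).card : ℝ) * (X i t).card ≤ (54 : ℝ) ^ ((n : ℝ) / 3) := by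
    intro i t
    refine (translates A d (S t) (X i t) (fun x => c x i) (fun x hx s hs => ?_)).2 hA
    rw [h]
    refine ⟨i, ?_⟩
    rw [add_assoc, add_self, add_zero, (mem_filter.1 hx).2]
    exact hs
  have hsub : A ⊆ univ.biUnion fun i => univ.biUnion fun t =>
      (X i t ×ˢ S t).image fun q => pt d q.1 (q.2 + c q.1 i) := by
    intro p hp
    obtain ⟨x, y, rfl⟩ := pt_surj d p
    obtain ⟨i, hi⟩ := (h x y).1 hp
    refine mem_biUnion.2 ⟨i, mem_univ _, mem_biUnion.2 ⟨j x i, mem_univ _, mem_image.2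
      ⟨(x, y + c x i), mem_product.2 ⟨mem_filter.2 ⟨mem_univ _, rfl⟩, hi⟩, ?_⟩⟩⟩
    show pt d x (y + c x i + c x i) = pt d x y
    rw [add_assoc, add_self, add_zero]
  have h2 : A.card ≤ ∑ i, ∑ t, (S t).card * (X i t).card := by
    refine (Finset.card_le_card hsub).trans (Finset.card_biUnion_le.trans ?_)
    refine Finset.sum_le_sum fun i _ => Finset.card_biUnion_le.trans ?_
    refine Finset.sum_le_sum fun t _ => Finset.card_image_le.trans ?_
    rw [Finset.card_product, mul_comm]
  have h3 : (A.card : ℝ) ≤ ∑ i, ∑ t, ((S t).card : ℝ) * (X i t).card := by exact_mod_cast h2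
  refine h3.trans ((Finset.sum_le_sum fun i _ => Finset.sum_le_sum fun t _ => h1 i t).trans
    (le_of_eq ?_))
  simp only [Finset.sum_const, Finset.card_univ, Fintype.card_fin, nsmul_eq_mul]
  ring

/-- every line is the union of `N` translates of members of `T` chains -/
theorem few_chains (A : Finset (V n × V n)) (hA : CFree A) (d : Dir) (N T : ℕ)
    (C : Fin T → Set (Finset (V n))) (hC : ∀ t, IsChain (· ⊆ ·) (C t))
    (h : ∀ x, ∃ (j : Fin N → Fin T) (c : Fin N → V n) (S : Fin N → Finset (V n)),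
      (∀ i, S i ∈ C (j i)) ∧ ∀ y, pt d x y ∈ A ↔ ∃ i, y + c i ∈ S i) :
    (A.card : ℝ) ≤ N * T * (2 * n + 2) * (4 : ℝ) ^ ((1 - 0.02 : ℝ) * n) := by
  classical
  choose j c S hS h using h
  -- the smallest members of the chains which contain `s`
  have hcmp : ∀ (i : Fin N) (t : Fin T), IsCmp fun x s => s ∈ S x i ∨ j x i ≠ t := by
    intro i t
    -- first the comparison itself
    have hg : ∀ s : V n, ∃ m : ℕ, ∀ B ∈ C t, s ∈ B ↔ m ≤ B.card := by
      intro s
      by_cases hex : ∃ B ∈ C t, s ∈ B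
      · have hex' : ∃ m : ℕ, ∃ B ∈ C t, s ∈ B ∧ B.card = m := by
          obtain ⟨B, h1, h2⟩ := hex
          exact ⟨_, B, h1, h2, rfl⟩
        refine ⟨Nat.find hex', fun B hB => ⟨fun hs => Nat.find_min' hex' ⟨B, hB, hs, rfl⟩,
          fun hm => ?_⟩⟩
        obtain ⟨B0, h1, h2, h3⟩ := Nat.find_spec hex'
        rw [← h3] at hm
        rcases (hC t).total hB h1 with h4 | h4
        · rw [Finset.eq_of_subset_of_card_le h4 hm]; exact h2
        · exact h4 h2
      · refine ⟨2 ^ n + 1, fun B hB => ⟨fun hs => absurd ⟨B, hB, hs⟩ hex, fun hm => ?_⟩⟩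
        have h1 : B.card ≤ 2 ^ n := by
          refine (Finset.card_le_univ B).trans ?_
          rw [Fintype.card_fun, ZMod.card, Fintype.card_fin]
        omega
    choose m hm using hg
    refine ⟨fun x => if j x i = t then -((S x i).card : ℝ) else -(2 ^ n + 2 + ∑ s, (m s : ℝ)),
      fun s => -(m s : ℝ), fun x s => ?_⟩
    by_cases h1 : j x i = t
    · simp only [h1, ne_eq, not_true_eq_false, or_false, if_true]
      rw [hm s (S x i) (h1 ▸ hS x i), neg_le_neg_iff, Nat.cast_le]
    · simp only [h1, ne_eq, not_false_eq_true, or_true, if_false, true_iff]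
      rw [neg_le_neg_iff]
      have h2 : (m s : ℝ) ≤ ∑ s, (m s : ℝ) :=
        Finset.single_le_sum (f := fun s => (m s : ℝ)) (fun _ _ => Nat.cast_nonneg _)
          (mem_univ s)
      have h3 : (0 : ℝ) ≤ 2 ^ n := by positivity
      linarith
  let e : Fin N × Fin T ≃ Fin (N * T) := finProdFinEquiv
  have h1 := pieces (K := ZMod 2) A hA (N * T) 1 1 (fun _ => d)
    (fun q x => c x (e.symm q).1)
    (fun q _ x => if j x (e.symm q).1 = (e.symm q).2 then 1 else 0) (fun _ _ _ => 1)
    (fun _ _ => 0) (fun _ _ => 0)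
    (fun q => .node (fun x s => s ∈ S x (e.symm q).1 ∨ j x (e.symm q).1 ≠ (e.symm q).2)
      (.leaf true) (.leaf false))
    (fun q => ⟨hcmp _ _, trivial, trivial⟩) (fun q => by simp [Tree.depth])
    (fun q x s => by
      rintro ⟨h2, -, h3⟩
      have h4 : j x (e.symm q).1 = (e.symm q).2 := by
        by_contra hne
        apply h2
        unfold ent
        simp [hne]
      have h5 : s ∈ S x (e.symm q).1 := by
        rcases h3 with h3 | h3
        · exact h3.1.resolve_right (fun h => h h4)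
        · exact absurd h3.2 (by simp [Tree.Accepts])
      rw [h]
      refine ⟨(e.symm q).1, ?_⟩
      rw [add_assoc, add_self, add_zero]
      exact h5)
    (fun p hp => by
      obtain ⟨x, y, rfl⟩ := pt_surj d p
      obtain ⟨i, hi⟩ := (h x y).1 hp
      refine ⟨e (i, j x i), x, y + c x i, ?_, ?_, rfl, ?_⟩
      · simp only [Equiv.symm_apply_apply]
        rw [add_assoc, add_self, add_zero]
      · unfold ent
        simp
      · left
        refine ⟨?_, rfl⟩
        simp only [Equiv.symm_apply_apply]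
        exact Or.inl hi)
  refine h1.trans (le_of_eq ?_)
  push_cast
  ring

end Pool.Agent.E8helper80.CT
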