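import Pool.Agent.E8helper80.CT.Pow

/-!
# Shifted rows: labels, comparisons, decision trees, chains
-/

set_option autoImplicit false

namespace Pool.Agent.E8helper80.CT

open Finset Pool.Agent.TH835.Cor

variable {n : ℕ} {K : Type} [Field K]

open Classical in
/-- matching labels of the two coordinates: many small products -/
theorem labels (G : Finset (V n × V n)) (a b : V n → ℕ) (M : ℝ) (hM : 0 ≤ M)
    (hmatch : ∀ p ∈ G, a p.1 = b p.2)
    (hcell : ∀ q : ℕ, ((G.filter fun p => a p.1 = q).card : ℝ) ≤ M) :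
    (G.card : ℝ) ≤ Real.sqrt M * 2 ^ n := by
  set Q := univ.image a with hQ
  set X : ℕ → Finset (V n) := fun q => univ.filter fun x => a x = q with hX
  set S : ℕ → Finset (V n) := fun q => univ.filter fun s => b s = q with hS
  have hsum : ∀ (w : V n → ℕ) (U : Finset ℕ),
      (∑ q ∈ U, ((univ.filter fun x => w x = q).card : ℝ)) ≤ 2 ^ n := by
    intro w U
    have h1 : ∑ q ∈ U, (univ.filter fun x : V n => w x = q).card ≤ 2 ^ n := by
      have h2 : ∑ q ∈ U, (univ.filter fun x : V n => w x = q).card =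
          (U.biUnion fun q => univ.filter fun x : V n => w x = q).card := by
        rw [Finset.card_biUnion]
        intro t _ t' _ htt
        rw [Function.onFun, Finset.disjoint_left]
        intro x hx hx'
        rw [mem_filter] at hx hx'
        exact htt (hx.2.symm.trans hx'.2)
      rw [h2]
      refine (Finset.card_le_univ _).trans ?_
      rw [Fintype.card_fun, ZMod.card, Fintype.card_fin]
    exact_mod_cast h1
  have hB : ∀ q, ((G.filter fun p => a p.1 = q).card : ℝ) ≤
      Real.sqrt M * (Real.sqrt (X q).card * Real.sqrt (S q).card) := by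
    intro q
    have h1 : (G.filter fun p => a p.1 = q).card ≤ (X q).card * (S q).card := by
      rw [← Finset.card_product]
      refine Finset.card_le_card fun p hp => ?_
      obtain ⟨h1, h2⟩ := mem_filter.1 hp
      rw [mem_product]
      exact ⟨mem_filter.2 ⟨mem_univ _, h2⟩,
        mem_filter.2 ⟨mem_univ _, (hmatch p h1).symm.trans h2⟩⟩
    have h2 : ((G.filter fun p => a p.1 = q).card : ℝ) ≤ (X q).card * (S q).card := by
      exact_mod_cast h1
    have h0 : (0 : ℝ) ≤ ((G.filter fun p => a p.1 = q).card : ℝ) := Nat.cast_nonneg _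
    refine le_of_pow_le_pow_left₀ (n := 2) (by norm_num) (by positivity) ?_
    rw [mul_pow, mul_pow, Real.sq_sqrt hM, Real.sq_sqrt (Nat.cast_nonneg _),
      Real.sq_sqrt (Nat.cast_nonneg _)]
    calc ((G.filter fun p => a p.1 = q).card : ℝ) ^ 2
        = ((G.filter fun p => a p.1 = q).card : ℝ) * ((G.filter fun p => a p.1 = q).card : ℝ) := by
          ring
      _ ≤ M * ((X q).card * (S q).card) := mul_le_mul (hcell q) h2 h0 hM
  have hG : (G.card : ℝ) ≤ ∑ q ∈ Q, ((G.filter fun p => a p.1 = q).card : ℝ) := by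
    have h1 : G ⊆ Q.biUnion fun q => G.filter fun p => a p.1 = q := by
      intro p hp
      exact mem_biUnion.2 ⟨a p.1, mem_image_of_mem _ (mem_univ _), mem_filter.2 ⟨hp, rfl⟩⟩
    exact_mod_cast (Finset.card_le_card h1).trans Finset.card_biUnion_le
  have hC : (∑ q ∈ Q, Real.sqrt (X q).card * Real.sqrt (S q).card) ≤ 2 ^ n := by
    have h1 : (∑ q ∈ Q, Real.sqrt (X q).card * Real.sqrt (S q).card) ^ 2 ≤ (2 ^ n) ^ 2 := by
      refine (Finset.sum_mul_sq_le_sq_mul_sq _ _ _).trans ?_
      simp only [Real.sq_sqrt (Nat.cast_nonneg _)]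
      have hx := hsum a Q
      have hs := hsum b Q
      rw [sq]
      exact mul_le_mul hx hs (Finset.sum_nonneg fun q _ => Nat.cast_nonneg _) (by positivity)
    exact le_of_pow_le_pow_left₀ (by norm_num) (by positivity) h1
  calc (G.card : ℝ) ≤ ∑ q ∈ Q, ((G.filter fun p => a p.1 = q).card : ℝ) := hG
    _ ≤ ∑ q ∈ Q, Real.sqrt M * (Real.sqrt (X q).card * Real.sqrt (S q).card) :=
        Finset.sum_le_sum fun q _ => hB q
    _ = Real.sqrt M * ∑ q ∈ Q, Real.sqrt (X q).card * Real.sqrt (S q).card := by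
        rw [Finset.mul_sum]
    _ ≤ Real.sqrt M * 2 ^ n := mul_le_mul_of_nonneg_left hC (Real.sqrt_nonneg _)

/-- comparison of a number depending on `x` with a number depending on `s` -/
def IsCmp (C : V n → V n → Prop) : Prop := ∃ f g : V n → ℝ, ∀ x s, C x s ↔ f x ≤ g s

/-- the complement of a comparison is a comparison -/
lemma cmp_not {C : V n → V n → Prop} (hC : IsCmp C) : IsCmp fun x s => ¬ C x s := by
  classical
  obtain ⟨f, g, h⟩ := hC
  let α : V n → ℕ := fun x => (univ.filter fun t : V n => f t < f x).card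
  let β : V n → ℕ := fun y => (univ.filter fun t : V n => f t ≤ g y).card
  have hαβ : ∀ x y, f x ≤ g y ↔ α x < β y := by
    intro x y
    constructor
    · intro h
      apply Finset.card_lt_card
      rw [Finset.ssubset_iff_of_subset]
      · exact ⟨x, mem_filter.2 ⟨mem_univ _, h⟩, fun hx => lt_irrefl _ (mem_filter.1 hx).2⟩
      · intro t ht
        exact mem_filter.2 ⟨mem_univ _, (mem_filter.1 ht).2.le.trans h⟩
    · intro h
      by_contra hlt
      have hlt := not_le.1 hlt
      have : β y ≤ α x := by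
        apply Finset.card_le_card
        intro t ht
        exact mem_filter.2 ⟨mem_univ _, (mem_filter.1 ht).2.trans_lt hlt⟩
      omega
  refine ⟨fun x => -(α x : ℝ), fun y => -(β y : ℝ), fun x y => ?_⟩
  beta_reduce
  rw [h, hαβ, not_lt, neg_le_neg_iff, Nat.cast_le]

/-- decision trees whose queries are relations `C x s` -/
inductive Tree (n : ℕ) : Type
  | leaf (b : Bool) : Tree n
  | node (C : V n → V n → Prop) (yes no : Tree n) : Tree n

/-- the depth of a tree -/
def Tree.depth : Tree n → ℕ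
  | .leaf _ => 0
  | .node _ s t => max s.depth t.depth + 1

/-- all queries are comparisons -/
def Tree.Comparisons : Tree n → Prop
  | .leaf _ => True
  | .node C s t => IsCmp C ∧ s.Comparisons ∧ t.Comparisons

/-- the tree accepts `(x, s)` -/
def Tree.Accepts : Tree n → V n → V n → Prop
  | .leaf b, _, _ => b = true
  | .node C s t, x, y => (C x y ∧ s.Accepts x y) ∨ (¬ C x y ∧ t.Accepts x y)

/-- one family, no comparisons -/
lemma family_zero {I : Type} [Fintype I] [CharP K 2] (L : V n → V n → Prop) (hL : Free L)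
    (φ : V n → V n) (u v : I → V n → K) (a b : V n → ℕ) (G : Finset (V n × V n))
    (hGL : ∀ x s, (x, s) ∈ G → L x (s + φ x))
    (hG : ∀ x s, (x, s) ∈ G ↔ (ent u v x s ≠ 0 ∧ a x = b s)) :
    (G.card : ℝ) ≤
      Real.sqrt ((Fintype.card I : ℝ) ^ 2 * (54 : ℝ) ^ ((n : ℝ) / 3)) * 2 ^ n := by
  classical
  refine labels G a b _ (by positivity) (fun p hp => ((hG p.1 p.2).1 hp).2) (fun q => ?_)
  have key : ∀ x s, ent (fun j x => if a x = q then u j x else 0)
      (fun j s => if b s = q then v j s else 0) x s =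
      if a x = q ∧ b s = q then ent u v x s else 0 := by
    intro x s
    unfold ent
    by_cases h1 : a x = q
    · by_cases h2 : b s = q
      · rw [if_pos ⟨h1, h2⟩]
        simp only [if_pos h1, if_pos h2]
      · rw [if_neg (fun h => h2 h.2)]
        simp only [if_neg h2, mul_zero, Finset.sum_const_zero]
    · rw [if_neg (fun h => h1 h.1)]
      simp only [if_neg h1, zero_mul, Finset.sum_const_zero]
  have h1 := total L hL φ (fun j x => if a x = q then u j x else 0)
    (fun j s => if b s = q then v j s else 0) (fun x s h => by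
      rw [key] at h
      by_cases h2 : a x = q ∧ b s = q
      · rw [if_pos h2] at h
        exact hGL x s ((hG x s).2 ⟨h, h2.1.trans h2.2.symm⟩)
      · rw [if_neg h2] at h
        exact absurd rfl h)
  refine le_trans ?_ h1
  have h2 : (G.filter fun p => a p.1 = q) ⊆ supp (fun j x => if a x = q then u j x else 0)
      (fun j s => if b s = q then v j s else 0) := by
    intro p hp
    obtain ⟨h3, h4⟩ := mem_filter.1 hp
    obtain ⟨h5, h6⟩ := (hG p.1 p.2).1 h3
    refine mem_filter.2 ⟨mem_univ _, ?_⟩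
    rw [key, if_pos ⟨h4, h6.symm.trans h4⟩]
    exact h5
  exact_mod_cast Finset.card_le_card h2

/-- one family -/
lemma family {I : Type} [Fintype I] [CharP K 2] (L : V n → V n → Prop) (hL : Free L)
    (φ : V n → V n) (u v : I → V n → K) (T : Tree n) : T.Comparisons → ∀ (a b : V n → ℕ)
      (G : Finset (V n × V n)) (_ : ∀ x s, (x, s) ∈ G → L x (s + φ x))
      (_ : ∀ x s, (x, s) ∈ G ↔ (ent u v x s ≠ 0 ∧ a x = b s ∧ T.Accepts x s)),
      (G.card : ℝ) ≤ (2 * (n + 1)) ^ T.depth *
        (Real.sqrt ((Fintype.card I : ℝ) ^ 2 * (54 : ℝ) ^ ((n : ℝ) / 3)) * 2 ^ n) := by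
  classical
  set m : ℝ := Real.sqrt ((Fintype.card I : ℝ) ^ 2 * (54 : ℝ) ^ ((n : ℝ) / 3)) * 2 ^ n with hmdef
  have hb0 : 0 ≤ m := by positivity
  induction T with
  | leaf c =>
    intro _ a b G hGL hG
    rw [Tree.depth, pow_zero, one_mul]
    cases c with
    | true =>
      refine family_zero L hL φ u v a b G hGL (fun x s => ?_)
      rw [hG]
      constructor
      · rintro ⟨h1, h2, -⟩; exact ⟨h1, h2⟩
      · rintro ⟨h1, h2⟩; exact ⟨h1, h2, rfl⟩
    | false =>
      have : G = ∅ := by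
        rw [Finset.eq_empty_iff_forall_notMem]
        rintro ⟨x, y⟩ hxy
        have h := ((hG x y).1 hxy).2.2
        exact absurd h (by simp [Tree.Accepts])
      rw [this, Finset.card_empty, Nat.cast_zero]
      exact hb0
  | node C s t ihs iht =>
    rintro ⟨hC, hs, ht⟩ a b G hGL hG
    -- one branch
    have branch : ∀ (C' : V n → V n → Prop) (_ : IsCmp C') (T' : Tree n) (_ : T'.depth ≤
        max s.depth t.depth)
        (_ : ∀ (a b : V n → ℕ)
          (G : Finset (V n × V n)) (_ : ∀ x s, (x, s) ∈ G → L x (s + φ x))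
          (_ : ∀ x s, (x, s) ∈ G ↔ (ent u v x s ≠ 0 ∧ a x = b s ∧ T'.Accepts x s)),
          (G.card : ℝ) ≤ (2 * (n + 1)) ^ T'.depth * m)
        (H : Finset (V n × V n)) (_ : ∀ x s, (x, s) ∈ H → L x (s + φ x))
        (_ : ∀ x s, (x, s) ∈ H ↔
          (ent u v x s ≠ 0 ∧ a x = b s ∧ C' x s ∧ T'.Accepts x s)),
        (H.card : ℝ) ≤ (n + 1) * ((2 * (n + 1)) ^ max s.depth t.depth * m) := by
      intro C' hC' T' hT' ih H hHL hH
      obtain ⟨f, g, hfg⟩ := hC'
      obtain ⟨p, q, hpq⟩ := Pool.Agent.TH513.Cor.stair f g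
      set Hl : ℕ → Finset (V n × V n) := fun l => H.filter fun t => p l t.1 = q l t.2 with hHl
      have h1 : H ⊆ (range (n + 1)).biUnion Hl := by
        intro w hw
        obtain ⟨-, -, h3, -⟩ := (hH w.1 w.2).1 hw
        obtain ⟨l, hl, h4⟩ := (hpq w.1 w.2).1 ((hfg w.1 w.2).1 h3)
        exact mem_biUnion.2 ⟨l, mem_range.2 hl, mem_filter.2 ⟨hw, h4⟩⟩
      have h2 : ∀ l ∈ range (n + 1), ((Hl l).card : ℝ) ≤
          (2 * (n + 1)) ^ max s.depth t.depth * m := by
        intro l hl
        refine (ih (fun x => Nat.pair (a x) (p l x)) (fun s => Nat.pair (b s) (q l s)) (Hl l)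
          (fun x s h => hHL x s (mem_filter.1 h).1) (fun x y => ?_)).trans ?_
        · rw [hHl, mem_filter, hH, Nat.pair_eq_pair]
          constructor
          · rintro ⟨⟨h3, h4, -, h5⟩, h6⟩
            exact ⟨h3, ⟨h4, h6⟩, h5⟩
          · rintro ⟨h3, ⟨h4, h6⟩, h5⟩
            exact ⟨⟨h3, h4, (hfg x y).2 ((hpq x y).2 ⟨l, mem_range.1 hl, h6⟩), h5⟩, h6⟩
        · refine mul_le_mul_of_nonneg_right ?_ hb0
          apply pow_le_pow_right₀ _ hT'
          have : (0 : ℝ) ≤ n := Nat.cast_nonneg n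
          linarith
      have h3 : (H.card : ℝ) ≤ ∑ l ∈ range (n + 1), ((Hl l).card : ℝ) := by
        exact_mod_cast (Finset.card_le_card h1).trans Finset.card_biUnion_le
      refine h3.trans ((Finset.sum_le_sum h2).trans ?_)
      rw [Finset.sum_const, card_range, nsmul_eq_mul]
      push_cast
      exact le_rfl
    set G1 := G.filter fun q => C q.1 q.2 with hG1
    set G2 := G.filter fun q => ¬ C q.1 q.2 with hG2
    have hsum : G.card = G1.card + G2.card := (Finset.card_filter_add_card_filter_not _).symm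
    have b1 := branch C hC s (le_max_left _ _) (ihs hs) G1
      (fun x s h => hGL x s (mem_filter.1 h).1) (fun x y => by
        rw [hG1, mem_filter, hG, Tree.Accepts]; tauto)
    have b2 := branch (fun x y => ¬ C x y) (cmp_not hC) t (le_max_right _ _) (iht ht) G2
      (fun x s h => hGL x s (mem_filter.1 h).1) (fun x y => by
        rw [hG2, mem_filter, hG, Tree.Accepts]; tauto)
    rw [hsum, Tree.depth, pow_succ]
    push_cast
    calc ((G1.card : ℝ) + G2.card) ≤ (n + 1) * ((2 * (n + 1)) ^ max s.depth t.depth *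
          m) + (n + 1) * ((2 * (n + 1)) ^ max s.depth t.depth * m) := add_le_add b1 b2
      _ = (2 * (n + 1)) ^ max s.depth t.depth * (2 * (n + 1)) * m := by ring

/-- the constant -/
lemma const (n r : ℕ) :
    Real.sqrt ((r : ℝ) ^ 2 * (54 : ℝ) ^ ((n : ℝ) / 3)) * 2 ^ n ≤
      r * (4 : ℝ) ^ ((1 - 0.02 : ℝ) * n) := by
  have h1 : Real.sqrt ((r : ℝ) ^ 2 * (54 : ℝ) ^ ((n : ℝ) / 3)) ≤
      r * (54 : ℝ) ^ ((n : ℝ) / 6) := by
    apply Real.sqrt_le_iff.2
    refine ⟨by positivity, ?_⟩
    rw [mul_pow, ← Real.rpow_natCast ((54 : ℝ) ^ ((n : ℝ) / 6)), ← Real.rpow_mul (by norm_num),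
      show (n : ℝ) / 6 * ((2 : ℕ) : ℝ) = n / 3 by push_cast; ring]
  have hbase : (54 : ℝ) ^ ((1 : ℝ) / 6) * 2 ≤ (4 : ℝ) ^ (0.98 : ℝ) := by
    refine le_of_pow_le_pow_left₀ (n := 150) (by norm_num) (by positivity) ?_
    rw [mul_pow, ← Real.rpow_natCast ((54 : ℝ) ^ ((1 : ℝ) / 6)), ← Real.rpow_mul (by norm_num),
      ← Real.rpow_natCast ((4 : ℝ) ^ (0.98 : ℝ)), ← Real.rpow_mul (by norm_num)]
    rw [show (1 : ℝ) / 6 * ((150 : ℕ) : ℝ) = ((25 : ℕ) : ℝ) by norm_num,
      show (0.98 : ℝ) * ((150 : ℕ) : ℝ) = ((147 : ℕ) : ℝ) by norm_num]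
    rw [Real.rpow_natCast, Real.rpow_natCast]
    have h4 : (4 : ℝ) ^ 147 = 2 ^ 144 * 2 ^ 150 := by
      rw [show (4 : ℝ) = 2 ^ 2 by norm_num, ← pow_mul, ← pow_add]
    rw [h4]
    exact mul_le_mul_of_nonneg_right (by norm_num) (by positivity)
  have h2 : (54 : ℝ) ^ ((n : ℝ) / 6) * 2 ^ n ≤ (4 : ℝ) ^ ((1 - 0.02 : ℝ) * n) := by
    have e1 : (54 : ℝ) ^ ((n : ℝ) / 6) * 2 ^ n = ((54 : ℝ) ^ ((1 : ℝ) / 6) * 2) ^ n := by
      rw [mul_pow, ← Real.rpow_natCast ((54 : ℝ) ^ ((1 : ℝ) / 6)), ← Real.rpow_mul (by norm_num)]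
      congr 2
      ring
    have e2 : (4 : ℝ) ^ ((1 - 0.02 : ℝ) * n) = ((4 : ℝ) ^ (0.98 : ℝ)) ^ n := by
      rw [← Real.rpow_natCast, ← Real.rpow_mul (by norm_num)]
      norm_num
    rw [e1, e2]
    exact pow_le_pow_left₀ (by positivity) hbase n
  calc Real.sqrt ((r : ℝ) ^ 2 * (54 : ℝ) ^ ((n : ℝ) / 3)) * 2 ^ n
      ≤ (r * (54 : ℝ) ^ ((n : ℝ) / 6)) * 2 ^ n :=
        mul_le_mul_of_nonneg_right h1 (by positivity)
    _ = r * ((54 : ℝ) ^ ((n : ℝ) / 6) * 2 ^ n) := by ring
    _ ≤ _ := mul_le_mul_of_nonneg_left h2 (by positivity)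

end Pool.Agent.E8helper80.CT
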