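import Pool.Agent.E8helper80.CT.Tw

/-!
# Removing the constant by tensor powers
-/

set_option autoImplicit false

namespace Pool.Agent.E8helper80.CT

open Finset Pool.Agent.TH835.Cor

variable {n k : ℕ} {K : Type} [Field K]

/-- the `k` blocks of a vector of length `k n` -/
def un (X : V (k * n)) (j : Fin k) : V n := fun i => X (finProdFinEquiv (j, i))

/-- the inverse -/
def pk (x : Fin k → V n) : V (k * n) := fun i =>
  x (finProdFinEquiv.symm i).1 (finProdFinEquiv.symm i).2

lemma un_pk (x : Fin k → V n) (j : Fin k) : un (pk x) j = x j := by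
  funext i
  simp [un, pk]

lemma pk_un (X : V (k * n)) : pk (un X) = X := by
  funext i
  simp only [pk, un, Prod.mk.eta, Equiv.apply_symm_apply]

lemma un_add (X Y : V (k * n)) (j : Fin k) : un (X + Y) j = un X j + un Y j := rfl

lemma un_inj {X Y : V (k * n)} (h : ∀ j, un X j = un Y j) : X = Y := by
  rw [← pk_un X, ← pk_un Y]
  congr 1
  exact funext h

/-- the power of a map -/
def phiPow (k : ℕ) (φ : V n → V n) (X : V (k * n)) : V (k * n) := pk fun j => φ (un X j)

/-- the power of a family of functions -/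
def famPow (k : ℕ) {I : Type} (u : I → V n → K) (J : Fin k → I) (X : V (k * n)) : K :=
  ∏ j, u (J j) (un X j)

lemma ent_pow {I : Type} [Fintype I] (u v : I → V n → K) (X S : V (k * n)) :
    ent (famPow k u) (famPow k v) X S = ∏ j, ent u v (un X j) (un S j) := by
  classical
  unfold ent famPow
  rw [Finset.prod_univ_sum, Fintype.piFinset_univ]
  refine Finset.sum_congr rfl fun J _ => ?_
  rw [Finset.prod_mul_distrib]

lemma ent_pow_ne {I : Type} [Fintype I] (u v : I → V n → K) (X S : V (k * n)) :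
    ent (famPow k u) (famPow k v) X S ≠ 0 ↔ ∀ j, ent u v (un X j) (un S j) ≠ 0 := by
  rw [ent_pow, Finset.prod_ne_zero_iff]
  simp

lemma supp_pow {I : Type} [Fintype I] (u v : I → V n → K) :
    (supp u v).card ^ k ≤ (supp (famPow k u) (famPow k v)).card := by
  classical
  have h1 : (Fintype.piFinset fun _ : Fin k => supp u v).card = (supp u v).card ^ k := by
    rw [Fintype.card_piFinset]
    simp
  rw [← h1]
  refine Finset.card_le_card_of_injOn
    (fun f => (pk fun j => (f j).1, pk fun j => (f j).2)) ?_ ?_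
  · intro f hf
    rw [Finset.mem_coe, Fintype.mem_piFinset] at hf
    refine mem_coe.2 (mem_filter.2 ⟨mem_univ _, ?_⟩)
    rw [ent_pow_ne]
    intro j
    simp only [un_pk]
    exact (mem_filter.1 (hf j)).2
  · intro f _ g _ h
    simp only [Prod.mk.injEq] at h
    funext j
    have h2 := congrArg (fun X => un X j) h.1
    have h3 := congrArg (fun X => un X j) h.2
    simp only [un_pk] at h2 h3
    exact Prod.ext h2 h3

lemma corn_pow {I : Type} [Fintype I] (φ : V n → V n) (u v : I → V n → K) :
    (corn (phiPow k φ) (famPow k u) (famPow k v)).card ≤ (corn φ u v).card ^ k := by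
  classical
  have h1 : (Fintype.piFinset fun _ : Fin k => corn φ u v).card = (corn φ u v).card ^ k := by
    rw [Fintype.card_piFinset]
    simp
  rw [← h1]
  have hphi : ∀ (X : V (k * n)) (j : Fin k), un (phiPow k φ X) j = φ (un X j) := by
    intro X j
    unfold phiPow
    rw [un_pk]
  refine Finset.card_le_card_of_injOn
    (fun P j => (un P.1 j, un P.2.1 j, un P.2.2 j)) ?_ ?_
  · rintro ⟨X, Y, Z⟩ hP
    obtain ⟨h2, h3, h4⟩ := (mem_filter.1 (mem_coe.1 hP)).2
    rw [ent_pow_ne] at h2 h3 h4
    rw [Finset.mem_coe, Fintype.mem_piFinset]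
    intro j
    refine mem_filter.2 ⟨mem_univ _, ?_, ?_, ?_⟩
    · have := h2 j
      rw [un_add, hphi] at this
      exact this
    · have := h3 j
      rw [un_add, un_add, hphi] at this
      exact this
    · have := h4 j
      rw [un_add, un_add, hphi, un_add] at this
      exact this
  · rintro ⟨X, Y, Z⟩ _ ⟨X', Y', Z'⟩ _ h
    have h2 : ∀ j, un X j = un X' j ∧ un Y j = un Y' j ∧ un Z j = un Z' j := by
      intro j
      have := congrFun h j
      simp only [Prod.mk.injEq] at this
      exact this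
    rw [un_inj fun j => (h2 j).1, un_inj fun j => (h2 j).2.1, un_inj fun j => (h2 j).2.2]

/-- removing a constant -/
lemma pow_limit (a b C : ℝ) (hb : 0 ≤ b) (h : ∀ k : ℕ, a ^ k ≤ C * b ^ k) : a ≤ b := by
  by_contra hcon
  have hlt := not_le.1 hcon
  rcases hb.eq_or_lt with h0 | h0
  · have h1 := h 1
    rw [← h0] at h1 hlt
    simp only [pow_one, mul_zero] at h1
    exact absurd hlt (not_lt.2 h1)
  · have h2 : 1 < a / b := by rwa [one_lt_div h0]
    obtain ⟨k, hk⟩ := pow_unbounded_of_one_lt C h2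
    have h3 : (a / b) ^ k ≤ C := by
      rw [div_pow, div_le_iff₀ (pow_pos h0 k)]
      exact h k
    exact absurd hk (not_lt.2 h3)

/-- **Many corners in sets with shifted rows.** -/
theorem count [CharP K 2] {I : Type} [Fintype I] (φ : V n → V n) (u v : I → V n → K) :
    ((supp u v).card : ℝ) ^ 2 ≤ (Fintype.card I : ℝ) ^ 2 * (54 : ℝ) ^ ((n : ℝ) / 3) *
      (corn φ u v).card := by
  classical
  rcases Nat.eq_zero_or_pos (Fintype.card I) with h0 | hpos
  · have hI : IsEmpty I := Fintype.card_eq_zero_iff.1 h0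
    have h1 : (supp u v) = ∅ := by
      rw [Finset.eq_empty_iff_forall_notMem]
      intro p hp
      have := (mem_filter.1 hp).2
      unfold ent at this
      simp at this
    rw [h1]
    simp only [card_empty, Nat.cast_zero, ne_eq, OfNat.ofNat_ne_zero, not_false_eq_true, zero_pow]
    positivity
  · refine pow_limit _ _ 6 (by positivity) fun k => ?_
    have h1 := count_real (phiPow k φ) (famPow k u) (famPow k v)
    have hr : (1 : ℝ) ≤ Fintype.card I := by exact_mod_cast hpos
    have hcard : (Fintype.card (Fin k → I) : ℝ) = (Fintype.card I : ℝ) ^ k := by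
      rw [Fintype.card_fun, Fintype.card_fin]
      push_cast
      rfl
    have h2 : (((supp u v).card : ℝ) ^ 2) ^ k ≤
        ((supp (famPow k u) (famPow k v)).card : ℝ) ^ 2 := by
      have h3 : ((supp u v).card : ℝ) ^ k ≤ (supp (famPow k u) (famPow k v)).card := by
        exact_mod_cast supp_pow u v
      calc (((supp u v).card : ℝ) ^ 2) ^ k = (((supp u v).card : ℝ) ^ k) ^ 2 := by ring
        _ ≤ _ := pow_le_pow_left₀ (by positivity) h3 2
    have h4 : ((corn (phiPow k φ) (famPow k u) (famPow k v)).card : ℝ) ≤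
        ((corn φ u v).card : ℝ) ^ k := by
      exact_mod_cast corn_pow φ u v
    have h5 : (54 : ℝ) ^ (((k * n : ℕ) : ℝ) / 3) = ((54 : ℝ) ^ ((n : ℝ) / 3)) ^ k := by
      rw [← Real.rpow_natCast, ← Real.rpow_mul (by norm_num)]
      congr 1
      push_cast
      ring
    have h6 : (1 : ℝ) ≤ (Fintype.card I : ℝ) ^ k := one_le_pow₀ hr
    refine h2.trans (h1.trans ?_)
    rw [hcard, h5]
    set R : ℝ := (Fintype.card I : ℝ) ^ k with hR
    have h7 : 2 * (R ^ 2 + 2 * R) ≤ 6 * R ^ 2 := by nlinarith
    calc 2 * (R ^ 2 + 2 * R) * ((54 : ℝ) ^ ((n : ℝ) / 3)) ^ k *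
          (corn (phiPow k φ) (famPow k u) (famPow k v)).card
        ≤ 6 * R ^ 2 * ((54 : ℝ) ^ ((n : ℝ) / 3)) ^ k * ((corn φ u v).card : ℝ) ^ k :=
          mul_le_mul (mul_le_mul_of_nonneg_right h7 (by positivity)) h4 (Nat.cast_nonneg _)
            (by positivity)
      _ = 6 * ((Fintype.card I : ℝ) ^ 2 * (54 : ℝ) ^ ((n : ℝ) / 3) *
          (corn φ u v).card) ^ k := by
        rw [hR]; ring

/-- no nontrivial corner -/
def Free (L : V n → V n → Prop) : Prop :=
  ∀ x y z : V n, L x y → L x (y + z) → L (x + z) y → z = 0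

/-- **Matrices with shifted rows in a corner-free set.** -/
theorem total [CharP K 2] {I : Type} [Fintype I] (L : V n → V n → Prop) (hL : Free L)
    (φ : V n → V n) (u v : I → V n → K) (h : ∀ x s, ent u v x s ≠ 0 → L x (s + φ x)) :
    ((supp u v).card : ℝ) ≤ (Fintype.card I : ℝ) ^ 2 * (54 : ℝ) ^ ((n : ℝ) / 3) := by
  classical
  have hback : ∀ x y : V n, ent u v x (y + φ x) ≠ 0 → L x y := by
    intro x y h1
    have h2 := h _ _ h1
    rwa [add_assoc, add_self, add_zero] at h2
  have h1 : (corn φ u v).card ≤ (supp u v).card := by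
    refine Finset.card_le_card_of_injOn (fun p => (p.1, p.2.1 + φ p.1)) ?_ ?_
    · rintro ⟨x, y, z⟩ hp
      exact mem_coe.2 (mem_filter.2 ⟨mem_univ _, (mem_filter.1 (mem_coe.1 hp)).2.1⟩)
    · rintro ⟨x, y, z⟩ hp ⟨x', y', z'⟩ hp' he
      simp only [Prod.mk.injEq] at he
      obtain ⟨e1, e2⟩ := he
      obtain ⟨a1, a2, a3⟩ := (mem_filter.1 (mem_coe.1 hp)).2
      obtain ⟨b1, b2, b3⟩ := (mem_filter.1 (mem_coe.1 hp')).2
      have hz : z = 0 := hL x y z (hback _ _ a1) (hback _ _ a2) (hback _ _ a3)
      have hz' : z' = 0 := hL x' y' z' (hback _ _ b1) (hback _ _ b2) (hback _ _ b3)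
      subst e1
      rw [add_right_cancel e2, hz, hz']
  have h2 := count φ u v
  have h3 : ((corn φ u v).card : ℝ) ≤ (supp u v).card := by exact_mod_cast h1
  rcases (Nat.cast_nonneg (α := ℝ) (supp u v).card).eq_or_lt with h0 | h0
  · rw [← h0]; positivity
  · have h4 : ((supp u v).card : ℝ) * (supp u v).card ≤
        ((Fintype.card I : ℝ) ^ 2 * (54 : ℝ) ^ ((n : ℝ) / 3)) * (supp u v).card := by
      rw [← sq]
      exact h2.trans (mul_le_mul_of_nonneg_left h3 (by positivity))
    exact le_of_mul_le_mul_right h4 h0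

end Pool.Agent.E8helper80.CT
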