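import Mathlib

/-!
# Many pairs in a relation without large independent sets
-/

set_option autoImplicit false

namespace Pool.Agent.E8helper80.CT

open Finset

open Classical in
/-- the ordered pairs of different elements of `Y` which are related -/
noncomputable def prs {X : Type} (E : X → X → Prop) (Y : Finset X) : Finset (X × X) :=
  (Y ×ˢ Y).filter fun p => p.1 ≠ p.2 ∧ E p.1 p.2

lemma mem_prs {X : Type} {E : X → X → Prop} {Y : Finset X} {p : X × X} :
    p ∈ prs E Y ↔ (p.1 ∈ Y ∧ p.2 ∈ Y) ∧ p.1 ≠ p.2 ∧ E p.1 p.2 := by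
  classical
  simp only [prs, mem_filter, mem_product]

open Classical in
/-- If every subset of `Y` without related pairs has at most `D` elements then there are many
related pairs. -/
theorem turan {X : Type} (E : X → X → Prop) (D : ℕ) (Y : Finset X)
    (h : ∀ Z ⊆ Y, (∀ x ∈ Z, ∀ x' ∈ Z, x ≠ x' → ¬ E x x') → Z.card ≤ D) :
    Y.card ^ 2 ≤ D * (2 * (prs E Y).card + Y.card) := by
  classical
  induction Y using Finset.strongInduction with
  | H Y ih =>
    rcases Y.eq_empty_or_nonempty with rfl | ⟨y0, hy0⟩
    · simp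
    -- a maximal independent subset
    obtain ⟨Z, hZ⟩ : ∃ Z : Finset X, Maximal (fun Z : Finset X => Z ⊆ Y ∧
        ∀ x ∈ Z, ∀ x' ∈ Z, x ≠ x' → ¬ E x x') Z := by
      have hfin : {Z : Finset X | Z ⊆ Y ∧ ∀ x ∈ Z, ∀ x' ∈ Z, x ≠ x' → ¬ E x x'}.Finite := by
        refine (Y.powerset.finite_toSet).subset fun Z hZ => ?_
        exact Finset.mem_coe.2 (mem_powerset.2 hZ.1)
      obtain ⟨Z, hZ1, hZ2⟩ := hfin.exists_le_maximal (a := {y0}) (by
        refine ⟨Finset.singleton_subset_iff.2 hy0, ?_⟩
        intro x hx x' hx' hne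
        exact absurd ((mem_singleton.1 hx).trans (mem_singleton.1 hx').symm) hne)
      exact ⟨Z, hZ2⟩
    have hZY : Z ⊆ Y := hZ.prop.1
    have hZi := hZ.prop.2
    have hZne : Z.Nonempty := by
      rw [Finset.nonempty_iff_ne_empty]
      rintro rfl
      have := hZ.le_of_ge (y := {y0}) ⟨Finset.singleton_subset_iff.2 hy0, by
        intro x hx x' hx' hne
        exact absurd ((mem_singleton.1 hx).trans (mem_singleton.1 hx').symm) hne⟩ (by simp)
      exact absurd (this (mem_singleton_self y0)) (by simp)
    have hlink : ∀ y ∈ Y \ Z, ∃ z ∈ Z, E y z ∨ E z y := by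
      intro y hy
      obtain ⟨hyY, hyZ⟩ := mem_sdiff.1 hy
      by_contra hcon
      push Not at hcon
      have h1 : insert y Z ⊆ Z := hZ.le_of_ge (y := insert y Z) ⟨by
          intro w hw
          rcases mem_insert.1 hw with rfl | hw
          · exact hyY
          · exact hZY hw, by
          intro x hx x' hx' hne
          rcases mem_insert.1 hx with h5 | h5
          · rcases mem_insert.1 hx' with h6 | h6
            · exact absurd (h5.trans h6.symm) hne
            · rw [h5]; exact (hcon x' h6).1
          · rcases mem_insert.1 hx' with h6 | h6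
            · rw [h6]; exact (hcon x h5).2
            · exact hZi x h5 x' h6 hne⟩ (Finset.subset_insert _ _)
      exact hyZ (h1 (mem_insert_self _ _))
    choose! w hw hw' using hlink
    have hlt : Y \ Z ⊂ Y := by
      rw [Finset.ssubset_iff_of_subset Finset.sdiff_subset]
      obtain ⟨z, hz⟩ := hZne
      exact ⟨z, hZY hz, fun hh => (mem_sdiff.1 hh).2 hz⟩
    have ih1 := ih (Y \ Z) hlt (fun Z' hZ' h' => h Z' (hZ'.trans Finset.sdiff_subset) h')
    have hzD : Z.card ≤ D := h Z hZY hZi
    have hcard : Y.card = (Y \ Z).card + Z.card := by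
      rw [Finset.card_sdiff_add_card_eq_card hZY]
    have hpr : (prs E (Y \ Z)).card + (Y \ Z).card ≤ (prs E Y).card := by
      have hinj : Set.InjOn (fun y => if E y (w y) then (y, w y) else (w y, y))
          (↑(Y \ Z) : Set X) := by
        intro y hy y' hy' heq
        have hyZ := (mem_sdiff.1 (Finset.mem_coe.1 hy)).2
        have hyZ' := (mem_sdiff.1 (Finset.mem_coe.1 hy')).2
        have hwZ := hw y (Finset.mem_coe.1 hy)
        have hwZ' := hw y' (Finset.mem_coe.1 hy')
        by_cases h1 : E y (w y) <;> by_cases h2 : E y' (w y') <;>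
          simp only [h1, h2, if_true, if_false, Prod.mk.injEq] at heq
        · exact heq.1
        · exact absurd (heq.1 ▸ hwZ') hyZ
        · exact absurd (heq.2 ▸ hwZ') hyZ
        · exact heq.2
      rw [← Finset.card_image_of_injOn hinj, ← Finset.card_union_of_disjoint]
      · refine Finset.card_le_card fun p hp => ?_
        rcases mem_union.1 hp with hp | hp
        · obtain ⟨h1, h2⟩ := mem_filter.1 hp
          obtain ⟨h3, h4⟩ := mem_product.1 h1
          exact mem_filter.2 ⟨mem_product.2 ⟨(mem_sdiff.1 h3).1, (mem_sdiff.1 h4).1⟩, h2⟩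
        · obtain ⟨y, hy, rfl⟩ := mem_image.1 hp
          obtain ⟨hyY, hyZ⟩ := mem_sdiff.1 hy
          have hne : y ≠ w y := fun h1 => hyZ (h1 ▸ hw y hy)
          by_cases h1 : E y (w y)
          · simp only [h1, if_true]
            exact mem_filter.2 ⟨mem_product.2 ⟨hyY, hZY (hw y hy)⟩, hne, h1⟩
          · simp only [h1, if_false]
            exact mem_filter.2 ⟨mem_product.2 ⟨hZY (hw y hy), hyY⟩, hne.symm,
              (hw' y hy).resolve_left h1⟩
      · rw [Finset.disjoint_left]
        intro p hp hp'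
        obtain ⟨y, hy, rfl⟩ := mem_image.1 hp'
        have h1 := (mem_product.1 (mem_filter.1 hp).1)
        by_cases h2 : E y (w y)
        · simp only [h2, if_true] at h1
          exact (mem_sdiff.1 h1.2).2 (hw y hy)
        · simp only [h2, if_false] at h1
          exact (mem_sdiff.1 h1.1).2 (hw y hy)
    have e1 : Y.card ^ 2 = (Y \ Z).card ^ 2 + 2 * ((Y \ Z).card * Z.card) + Z.card * Z.card := by
      rw [hcard]; ring
    have e2 : (Y \ Z).card * Z.card ≤ D * (Y \ Z).card := by
      rw [mul_comm]; exact Nat.mul_le_mul_right _ hzD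
    have e3 : Z.card * Z.card ≤ D * Z.card := Nat.mul_le_mul_right _ hzD
    calc Y.card ^ 2 = (Y \ Z).card ^ 2 + 2 * ((Y \ Z).card * Z.card) + Z.card * Z.card := e1
      _ ≤ D * (2 * (prs E (Y \ Z)).card + (Y \ Z).card) + 2 * (D * (Y \ Z).card) +
          D * Z.card := by
        exact Nat.add_le_add (Nat.add_le_add ih1 (Nat.mul_le_mul_left _ e2)) e3
      _ = D * (2 * ((prs E (Y \ Z)).card + (Y \ Z).card) + ((Y \ Z).card + Z.card)) := by ring
      _ ≤ D * (2 * (prs E Y).card + Y.card) := by
        rw [← hcard]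
        exact Nat.mul_le_mul_left _ (Nat.add_le_add_right (Nat.mul_le_mul_left _ hpr) _)

end Pool.Agent.E8helper80.CT
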