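import Pool.Agent.TH513.Cor.Fam
import Pool.Agent.E8helper80.CT.Turan

/-!
# Corners in sets with shifted rows

Let `φ : F_2^n → F_2^n` be arbitrary and `R` a matrix of rank at most `r` over a field of
characteristic 2. The set `{(x, s + φ x) | R x s ≠ 0}` with `F` elements has at least
`F² / (2 (r² + 2 r) 54^(n/3))` corners (the trivial ones included).

For a fixed `t` put `ψ x = x + φ x` and consider the matrix
`M x x' = R x (t + x') * g (ψ x + φ x') * R x' (t + ψ x + φ x')`. If `M x x' ≠ 0` and
`R x (t + x) ≠ 0` then `(x, y), (x, y + z), (x + z, y)`, `y = t + ψ x`, `z = x + x'`, is a corner.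
If `g` is a polynomial such that the products `g c * v k (t + c)` have degree at most `2 n / 3`
then `M` has small rank, whatever `φ` and `ψ` are.
-/

set_option autoImplicit false

namespace Pool.Agent.E8helper80.CT

open Finset Pool.Agent.TH835.Cor

variable {n : ℕ} {K : Type} [Field K]

/-- a matrix which is diagonal on `Y`, with nonzero diagonal entries -/
lemma diag_bound {I X : Type} [Fintype I] (Y : Finset X) (a b : I → X → K)
    (h0 : ∀ x ∈ Y, ∀ x' ∈ Y, x ≠ x' → ∑ k, a k x * b k x' = 0)
    (h1 : ∀ x ∈ Y, ∑ k, a k x * b k x ≠ 0) : Y.card ≤ Fintype.card I := by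
  classical
  have hli : LinearIndependent K (fun x : Y => (fun k => a k x.1 : I → K)) := by
    rw [Fintype.linearIndependent_iff]
    intro c hc x'
    have e1 : ∑ x : Y, c x * ∑ k, a k x.1 * b k x'.1 = 0 := by
      have h2 : ∀ k, ∑ x : Y, c x * a k x.1 = 0 := by
        intro k
        have := congrFun hc k
        simpa [Finset.sum_apply] using this
      calc ∑ x : Y, c x * ∑ k, a k x.1 * b k x'.1
          = ∑ k, (∑ x : Y, c x * a k x.1) * b k x'.1 := by
            simp only [Finset.mul_sum, Finset.sum_mul]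
            rw [Finset.sum_comm]
            refine Finset.sum_congr rfl fun k _ => Finset.sum_congr rfl fun x _ => ?_
            ring
        _ = 0 := by
            apply Finset.sum_eq_zero; intro k _; rw [h2 k, zero_mul]
    rw [Finset.sum_eq_single x'] at e1
    · exact (mul_eq_zero.1 e1).resolve_right (h1 x'.1 x'.2)
    · intro x _ hxx
      rw [h0 x.1 x.2 x'.1 x'.2 (fun h => hxx (Subtype.ext h)), mul_zero]
    · intro h; exact absurd (mem_univ _) h
  have := hli.fintype_card_le_finrank
  rwa [Fintype.card_coe, Module.finrank_fintype_fun_eq_card] at this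

/-- one slice `x + s = t` -/
theorem slice [CharP K 2] {I : Type} [Fintype I] (φ : V n → V n)
    (u v : I → V n → K) (t : V n) (d : ℕ) (Z : Finset (V n))
    (hZ : ∀ x ∈ Z, ∑ j, u j x * v j (t + x) ≠ 0)
    (hE : ∀ x ∈ Z, ∀ x' ∈ Z, x ≠ x' → ¬ (∑ j, u j x * v j (t + x') ≠ 0 ∧
      ∑ j, u j x' * v j (t + (x + φ x + φ x')) ≠ 0)) :
    Z.card ≤ Fintype.card I * (univ.filter fun B : Finset (Fin n) => d < B.card).card +
      (Fintype.card I + Fintype.card I * Fintype.card I) *
        (univ.filter fun B : Finset (Fin n) => B.card ≤ d / 2).card := by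
  classical
  set r := Fintype.card I with hr
  set M := (univ.filter fun B : Finset (Fin n) => B.card ≤ d / 2).card with hM
  set M' := (univ.filter fun B : Finset (Fin n) => d < B.card).card with hM'
  -- choose `g` with `g c * v k (t + c)` of degree at most `d`
  let Φ : (V n → K) →ₗ[K] ((I × {B : Finset (Fin n) // d < B.card}) → K) :=
    { toFun := fun g q => cf (fun c => g c * v q.1 (t + c)) q.2.1
      map_add' := by
        intro g g'
        ext q
        simp only [cf, Pi.add_apply, add_mul, Finset.sum_add_distrib]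
      map_smul' := by
        intro c g
        ext q
        simp only [cf, Pi.smul_apply, smul_eq_mul, RingHom.id_apply, Finset.mul_sum, mul_assoc] }
  obtain ⟨g, hg, hz⟩ := few_zeros Φ
  have hdeg : ∀ k : I, ∀ B : Finset (Fin n), d < B.card →
      cf (fun c => g c * v k (t + c)) B = 0 := by
    intro k B hB
    exact congrFun hg (k, ⟨B, hB⟩)
  have hzc : (univ.filter fun c : V n => g c = 0).card ≤ r * M' := by
    rw [← Fintype.card_subtype, ← Nat.card_eq_fintype_card]
    refine hz.trans ?_
    rw [Fintype.card_prod]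
    refine Nat.mul_le_mul_left _ ?_
    rw [Fintype.card_subtype]
  -- the splitting
  choose a b hab using fun k : I => split (fun c => g c * v k (t + c)) d (hdeg k)
  let J := {B : Finset (Fin n) // B.card ≤ d / 2}
  have hJc : Fintype.card J ≤ M := by
    rw [Fintype.card_subtype, hM]
  let a' : (I × J) ⊕ (I × I × J) → V n → K := Sum.elim
    (fun q x => u q.1 x * mon K q.2.1 (x + φ x)) (fun q x => u q.1 x * a q.2.1 q.2.2 (x + φ x))
  let b' : (I × J) ⊕ (I × I × J) → V n → K := Sum.elim
    (fun q x' => v q.1 (t + x') * ∑ k, u k x' * b k q.2 (φ x'))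
    (fun q x' => v q.1 (t + x') * (u q.2.1 x' * mon K q.2.2.1 (φ x')))
  have hm : ∀ x x', ∑ q, a' q x * b' q x' =
      (∑ j, u j x * v j (t + x')) * (g (x + φ x + φ x') *
        ∑ k, u k x' * v k (t + (x + φ x + φ x'))) := by
    intro x x'
    rw [Fintype.sum_sum_type]
    simp only [a', b', Sum.elim_inl, Sum.elim_inr]
    rw [Fintype.sum_prod_type, Fintype.sum_prod_type, ← Finset.sum_add_distrib, Finset.sum_mul]
    refine Finset.sum_congr rfl fun j _ => ?_
    rw [Fintype.sum_prod_type]
    have e1 : ∑ P : J, u j x * mon K P.1 (x + φ x) *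
        (v j (t + x') * ∑ k, u k x' * b k P (φ x')) =
        u j x * v j (t + x') * ∑ k, u k x' * ∑ P : J, mon K P.1 (x + φ x) * b k P (φ x') := by
      rw [Finset.mul_sum]
      simp only [Finset.mul_sum]
      rw [Finset.sum_comm]
      refine Finset.sum_congr rfl fun k _ => Finset.sum_congr rfl fun P _ => ?_
      ring
    have e2 : ∑ k, ∑ P : J, u j x * a k P (x + φ x) *
        (v j (t + x') * (u k x' * mon K P.1 (φ x'))) =
        u j x * v j (t + x') * ∑ k, u k x' * ∑ P : J, a k P (x + φ x) * mon K P.1 (φ x') := by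
      rw [Finset.mul_sum]
      simp only [Finset.mul_sum]
      refine Finset.sum_congr rfl fun k _ => Finset.sum_congr rfl fun P _ => ?_
      ring
    rw [e1, e2, ← mul_add, ← Finset.sum_add_distrib]
    congr 1
    rw [Finset.mul_sum]
    refine Finset.sum_congr rfl fun k _ => ?_
    rw [← mul_add, ← hab k (x + φ x) (φ x')]
    ring
  -- the diagonal matrix
  set Y := Z.filter fun x : V n => g x ≠ 0 with hY
  have hcancel : ∀ x : V n, x + φ x + φ x = x := by
    intro x
    rw [add_assoc, add_self, add_zero]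
  have hYc : Y.card ≤ (r + r * r) * M := by
    have h3 := diag_bound Y a' b' (by
      intro x hx x' hx' hne
      rw [hm]
      by_contra hcon
      have h4 := left_ne_zero_of_mul hcon
      have h5 := right_ne_zero_of_mul (right_ne_zero_of_mul hcon)
      exact hE x (mem_filter.1 hx).1 x' (mem_filter.1 hx').1 hne ⟨h4, h5⟩) (by
      intro x hx
      obtain ⟨hx1, hx2⟩ := mem_filter.1 hx
      rw [hm, hcancel]
      exact mul_ne_zero (hZ x hx1) (mul_ne_zero hx2 (hZ x hx1)))
    refine h3.trans ?_
    rw [Fintype.card_sum, Fintype.card_prod, Fintype.card_prod, Fintype.card_prod]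
    calc r * Fintype.card J + r * (r * Fintype.card J) ≤ r * M + r * (r * M) :=
          Nat.add_le_add (Nat.mul_le_mul_left _ hJc)
            (Nat.mul_le_mul_left _ (Nat.mul_le_mul_left _ hJc))
      _ = (r + r * r) * M := by ring
  have hsub : Z ⊆ Y ∪ univ.filter fun c : V n => g c = 0 := by
    intro x hx
    rw [mem_union, hY, mem_filter, mem_filter]
    by_cases h0 : g x = 0
    · right; exact ⟨mem_univ _, h0⟩
    · left; exact ⟨hx, h0⟩
  calc Z.card ≤ (Y ∪ univ.filter fun c : V n => g c = 0).card := Finset.card_le_card hsub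
    _ ≤ Y.card + (univ.filter fun c : V n => g c = 0).card := Finset.card_union_le _ _
    _ ≤ (r + r * r) * M + r * M' := Nat.add_le_add hYc hzc
    _ = r * M' + (r + r * r) * M := by ring

/-- the entry `(x, s)` of the matrix `R = ∑ u_j v_j` -/
def ent {I : Type} [Fintype I] (u v : I → V n → K) (x s : V n) : K := ∑ j, u j x * v j s

open Classical in
/-- the nonzero entries -/
noncomputable def supp {I : Type} [Fintype I] (u v : I → V n → K) : Finset (V n × V n) :=
  univ.filter fun p => ent u v p.1 p.2 ≠ 0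

open Classical in
/-- the corners `(x, y, z)`, trivial ones included, of `{(x, s + φ x) | R x s ≠ 0}` -/
noncomputable def corn {I : Type} [Fintype I] (φ : V n → V n) (u v : I → V n → K) :
    Finset (V n × V n × V n) :=
  univ.filter fun p => ent u v p.1 (p.2.1 + φ p.1) ≠ 0 ∧
    ent u v p.1 (p.2.1 + p.2.2 + φ p.1) ≠ 0 ∧
    ent u v (p.1 + p.2.2) (p.2.1 + φ (p.1 + p.2.2)) ≠ 0

/-- **Many corners**, with a constant. -/
theorem count_nat [CharP K 2] {I : Type} [Fintype I] (φ : V n → V n) (u v : I → V n → K) :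
    (supp u v).card ^ 2 ≤ 2 * (Fintype.card I * Fintype.card I + 2 * Fintype.card I) *
      (univ.filter fun B : Finset (Fin n) => B.card ≤ n / 3).card * 2 ^ n *
      (corn φ u v).card := by
  classical
  set r := Fintype.card I with hr
  set M := (univ.filter fun B : Finset (Fin n) => B.card ≤ n / 3).card with hM
  have h3 : (univ.filter fun B : Finset (Fin n) => 2 * n / 3 < B.card).card ≤ M :=
    large_sets (n / 3) (2 * n / 3) (by omega)
  have h4 : (univ.filter fun B : Finset (Fin n) => B.card ≤ 2 * n / 3 / 2).card ≤ M := by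
    refine Finset.card_le_card fun C hC => ?_
    rw [mem_filter] at hC ⊢
    refine ⟨hC.1, ?_⟩
    have := hC.2
    omega
  set D := (r * r + 2 * r) * M with hD
  let Z : V n → Finset (V n) := fun t => univ.filter fun x => ent u v x (t + x) ≠ 0
  let E : V n → V n → V n → Prop := fun t x x' => ent u v x (t + x') ≠ 0 ∧
    ent u v x' (t + (x + φ x + φ x')) ≠ 0
  let P : V n → Finset (V n × V n) := fun t => univ.filter fun q =>
    ent u v q.1 (t + q.1) ≠ 0 ∧ E t q.1 q.2
  have hcancel : ∀ x : V n, x + φ x + φ x = x := by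
    intro x
    rw [add_assoc, add_self, add_zero]
  -- one slice
  have hslice : ∀ t, (Z t).card ^ 2 ≤ 2 * D * (P t).card := by
    intro t
    have h1 := turan (E t) D (Z t) (by
      intro Z' hZ' hi
      refine (slice φ u v t (2 * n / 3) Z' (fun x hx => (mem_filter.1 (hZ' hx)).2) hi).trans ?_
      calc _ ≤ r * M + (r + r * r) * M :=
            Nat.add_le_add (Nat.mul_le_mul_left _ h3) (Nat.mul_le_mul_left _ h4)
        _ = D := by rw [hD]; ring)
    have h2 : (prs (E t) (Z t)).card + (Z t).card ≤ (P t).card := by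
      have hinj : Set.InjOn (fun x : V n => (x, x)) (↑(Z t) : Set (V n)) := by
        intro x _ x' _ h
        exact (Prod.mk.injEq _ _ _ _ ▸ h : x = x' ∧ x = x').1
      rw [← Finset.card_image_of_injOn hinj, ← Finset.card_union_of_disjoint]
      · refine Finset.card_le_card fun p hp => ?_
        rcases mem_union.1 hp with hp | hp
        · obtain ⟨h1, h2⟩ := mem_prs.1 hp
          exact mem_filter.2 ⟨mem_univ _, (mem_filter.1 h1.1).2, h2.2⟩
        · obtain ⟨x, hx, rfl⟩ := mem_image.1 hp
          have h5 := (mem_filter.1 hx).2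
          refine mem_filter.2 ⟨mem_univ _, h5, h5, ?_⟩
          show ent u v x (t + (x + φ x + φ x)) ≠ 0
          rw [hcancel]; exact h5
      · rw [Finset.disjoint_left]
        intro p hp hp'
        obtain ⟨x, hx, rfl⟩ := mem_image.1 hp'
        exact (mem_prs.1 hp).2.1 rfl
    calc (Z t).card ^ 2 ≤ D * (2 * (prs (E t) (Z t)).card + (Z t).card) := h1
      _ ≤ D * (2 * (P t).card) := Nat.mul_le_mul_left _ (by omega)
      _ = 2 * D * (P t).card := by ring
  have hF : (supp u v).card = ∑ t, (Z t).card := by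
    rw [Finset.card_eq_sum_card_fiberwise (f := fun p : V n × V n => p.2 + p.1) (t := univ)
      (fun _ _ => Finset.mem_coe.2 (mem_univ _))]
    refine Finset.sum_congr rfl fun t _ => ?_
    refine Finset.card_bij' (fun p _ => p.1) (fun x _ => (x, t + x)) ?_ ?_ ?_ ?_
    · intro p hp
      simp only [supp, Z, mem_filter, mem_univ, true_and] at hp ⊢
      have : t + p.1 = p.2 := by rw [← hp.2, add_assoc, add_self, add_zero]
      rw [this]; exact hp.1
    · intro x hx
      simp only [supp, Z, mem_filter, mem_univ, true_and] at hx ⊢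
      exact ⟨hx, by rw [add_assoc, add_self, add_zero]⟩
    · intro p hp
      simp only [supp, mem_filter, mem_univ, true_and] at hp
      have : t + p.1 = p.2 := by rw [← hp.2, add_assoc, add_self, add_zero]
      ext1
      · rfl
      · exact this
    · intro x hx; rfl
  have hC : ∑ t, (P t).card ≤ (corn φ u v).card := by
    rw [← Finset.card_sigma]
    refine Finset.card_le_card_of_injOn
      (fun q : (_ : V n) × (V n × V n) => (q.2.1, q.1 + (q.2.1 + φ q.2.1), q.2.1 + q.2.2)) ?_ ?_
    · rintro ⟨t, x, x'⟩ hq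
      have h5 := (mem_sigma.1 (Finset.mem_coe.1 hq)).2
      obtain ⟨h6, h7, h8⟩ := (mem_filter.1 h5).2
      refine mem_coe.2 (mem_filter.2 ⟨mem_univ _, ?_, ?_, ?_⟩)
      · show ent u v x (t + (x + φ x) + φ x) ≠ 0
        rw [add_assoc t, hcancel]; exact h6
      · show ent u v x (t + (x + φ x) + (x + x') + φ x) ≠ 0
        have e : t + (x + φ x) + (x + x') + φ x = t + x' := by
          calc t + (x + φ x) + (x + x') + φ x = t + x' + (x + x) + (φ x + φ x) := by abel
            _ = t + x' := by rw [add_self, add_self, add_zero, add_zero]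
        rw [e]; exact h7
      · show ent u v (x + (x + x')) (t + (x + φ x) + φ (x + (x + x'))) ≠ 0
        have e : x + (x + x') = x' := by rw [← add_assoc, add_self, zero_add]
        rw [e, add_assoc]; exact h8
    · rintro ⟨t, x, x'⟩ _ ⟨t1, x1, x1'⟩ _ h
      simp only [Prod.mk.injEq] at h
      obtain ⟨h6, h7, h8⟩ := h
      subst h6
      have h9 : t = t1 := add_right_cancel h7
      have h10 : x' = x1' := add_left_cancel h8
      rw [h9, h10]
  calc (supp u v).card ^ 2 = (∑ t, (Z t).card * 1) ^ 2 := by rw [hF]; simp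
    _ ≤ (∑ t, (Z t).card ^ 2) * ∑ _t : V n, 1 ^ 2 := Finset.sum_mul_sq_le_sq_mul_sq _ _ _
    _ = (∑ t, (Z t).card ^ 2) * 2 ^ n := by
      simp only [one_pow, Finset.sum_const, Finset.card_univ, Fintype.card_fun, ZMod.card,
        Fintype.card_fin, smul_eq_mul, mul_one]
    _ ≤ (∑ t, 2 * D * (P t).card) * 2 ^ n :=
      Nat.mul_le_mul_right _ (Finset.sum_le_sum fun t _ => hslice t)
    _ = 2 * D * 2 ^ n * ∑ t, (P t).card := by rw [← Finset.mul_sum]; ring
    _ ≤ 2 * D * 2 ^ n * (corn φ u v).card := Nat.mul_le_mul_left _ hC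
    _ = _ := by rw [hD]; ring

/-- the same with real numbers -/
theorem count_real [CharP K 2] {I : Type} [Fintype I] (φ : V n → V n) (u v : I → V n → K) :
    ((supp u v).card : ℝ) ^ 2 ≤ 2 * ((Fintype.card I : ℝ) ^ 2 + 2 * Fintype.card I) *
      (54 : ℝ) ^ ((n : ℝ) / 3) * (corn φ u v).card := by
  classical
  set M := (univ.filter fun B : Finset (Fin n) => B.card ≤ n / 3).card with hM
  have h6 : (M : ℝ) ≤ (27 / 4 : ℝ) ^ ((n : ℝ) / 3) := by
    have h7 : (M : ℝ) ^ 3 ≤ (27 / 4 : ℝ) ^ n := small_sets (n / 3) (by omega)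
    have h8 : ((27 / 4 : ℝ) ^ ((n : ℝ) / 3)) ^ 3 = (27 / 4 : ℝ) ^ n := by
      rw [← Real.rpow_natCast, ← Real.rpow_mul (by norm_num)]
      rw [show (n : ℝ) / 3 * ((3 : ℕ) : ℝ) = n by push_cast; ring, Real.rpow_natCast]
    rw [← h8] at h7
    exact le_of_pow_le_pow_left₀ (by norm_num) (by positivity) h7
  have h9 : (54 : ℝ) ^ ((n : ℝ) / 3) = 2 ^ n * (27 / 4 : ℝ) ^ ((n : ℝ) / 3) := by
    have : (2 : ℝ) ^ n = (8 : ℝ) ^ ((n : ℝ) / 3) := by
      rw [show (8 : ℝ) = (2 : ℝ) ^ (3 : ℝ) by norm_num, ← Real.rpow_mul (by norm_num),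
        show (3 : ℝ) * ((n : ℝ) / 3) = n by ring, Real.rpow_natCast]
    rw [this, ← Real.mul_rpow (by norm_num) (by norm_num)]
    norm_num
  have h10 : ((supp u v).card : ℝ) ^ 2 ≤ 2 * (Fintype.card I * Fintype.card I +
      2 * Fintype.card I) * M * 2 ^ n * (corn φ u v).card := by
    exact_mod_cast count_nat φ u v
  refine h10.trans ?_
  rw [h9]
  calc 2 * ((Fintype.card I : ℝ) * Fintype.card I + 2 * Fintype.card I) * M * 2 ^ n *
        (corn φ u v).card
      = (2 * ((Fintype.card I : ℝ) ^ 2 + 2 * Fintype.card I) * 2 ^ n *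
        (corn φ u v).card) * M := by ring
    _ ≤ (2 * ((Fintype.card I : ℝ) ^ 2 + 2 * Fintype.card I) * 2 ^ n *
        (corn φ u v).card) * (27 / 4 : ℝ) ^ ((n : ℝ) / 3) :=
        mul_le_mul_of_nonneg_left h6 (by positivity)
    _ = _ := by ring

end Pool.Agent.E8helper80.CT
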